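import Pool.Agent.H.MP_46a37f_co.A

namespace Pool.Agent.Results.MP_46a37f_co.Primes
open Finset

/-- `E_k`: the multiset of all products of `k` parts (with repetition). -/
def E (k : ℕ) (s : Multiset ℕ) : Multiset ℕ := (s.powersetCard k).map Multiset.prod

/-- `I_k(n)`: the image set of the partitions of `n` with at least `k` parts. -/
def I (k n : ℕ) : Finset (Multiset ℕ) :=
  ((univ : Finset n.Partition).filter fun l => k ≤ l.parts.card).image fun l => E k l.parts

/-- `R_{k,j}(n)`. -/
def R (k j n : ℕ) : ℤ := ∑ μ ∈ I k n, (μ.count j : ℤ)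

/-- `N_j(n)`. -/
def N (j n : ℕ) : ℤ := ∑ l : n.Partition, (l.parts.count j : ℤ)

/-- `N_j(n - 2)`, zero for `n < 2`. -/
def N2 (j n : ℕ) : ℤ := if 2 ≤ n then N j (n - 2) else 0

/-- `Δ^{k-1} f`, with `Δ f n = f (n + 1) - f n`. -/
def D (k : ℕ) (f : ℕ → ℤ) : ℕ → ℤ := (fun g n => g (n + 1) - g n)^[k - 1] f

open Pool.Agent.H.MP_46a37f_co in
theorem result :
    (∀ k n p : ℕ, 2 ≤ k → (p = 1 ∨ p.Prime) → D k (R k p) n = N p n) ∧
    ∀ n : ℕ,
      D 2 (fun m => R 2 4 m + R 2 4 (m + 1)) n = N 2 n + N 4 n + N 4 (n + 1) ∧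
      D 2 (R 2 6) n = N 6 n + N2 2 n - N2 3 n ∧
      D 2 (fun m => R 2 6 m + R 2 6 (m + 1)) n = N 3 n + N 6 n + N 6 (n + 1) ∧
      D 2 (fun m => R 2 9 m + R 2 9 (m + 1) + R 2 9 (m + 2)) n =
        N 3 n + N 9 n + N 9 (n + 1) + N 9 (n + 2) ∧
      D 2 (fun m => R 2 10 m + R 2 10 (m + 1)) n = N 5 n + N 10 n + N 10 (n + 1) := by
  have hN : N = H.MP_46a37f_co.N := rfl
  refine ⟨fun k n p hk hp => ?_, fun n => ?_⟩
  · obtain ⟨k, rfl⟩ : ∃ m, k = m + 1 := ⟨k - 1, by omega⟩
    have : R (k + 1) p = F (k + 1) p := by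
      ext m
      refine img (k + 1) p m fun l l' h he => Nat.Partition.ext ?_
      exact inj1 k _ _ (fun _ h => l.parts_pos h) (fun _ h => l'.parts_pos h) (ones hp h)
        (ones hp (he ▸ h)) he
    rw [this, hN, ← F_iter hp k]
    rfl
  · have hR : ∀ j, R 2 j = F 2 j := by
      intro j
      ext m
      refine img 2 j m fun l l' _ he => Nat.Partition.ext ?_
      exact inj2 _ _ (fun _ h => l.parts_pos h) (fun _ h => l'.parts_pos h)
        (by rw [l.parts_sum, l'.parts_sum]) he
    have d : ∀ j a : ℕ, 0 < j → a ∣ j → a ≤ j := fun j a hj h => Nat.le_of_dvd hj h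
    have f4 := F_xx 2 (by norm_num) (fun a h => by
      have := d _ a (by norm_num) h; norm_num at this h ⊢; interval_cases a <;> simp_all)
    have f9 := F_xx 3 (by norm_num) (fun a h => by
      have := d _ a (by norm_num) h; norm_num at this h ⊢; interval_cases a <;> simp_all)
    have f6 := F_xy 2 3 (by norm_num) (by norm_num) (by norm_num) (fun a h => by
      have := d _ a (by norm_num) h; norm_num at this h ⊢; interval_cases a <;> simp_all)
    have f10 := F_xy 2 5 (by norm_num) (by norm_num) (by norm_num) (fun a h => by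
      have := d _ a (by norm_num) h; norm_num at this h ⊢; interval_cases a <;> simp_all)
    norm_num only at f4 f9 f6 f10
    have p1 : ∀ j m, j ≠ 1 → P 1 j (m + 1) = P 1 j m + H.MP_46a37f_co.N j m :=
      fun j m h => P_rec 1 j m one_pos h
    simp only [D, hR, N2, hN, Nat.add_one_sub_one, Function.iterate_one, add_assoc,
      Nat.reduceAdd]
    refine ⟨?_, ?_, ?_, ?_, ?_⟩
    · have := Q_rec 2 n two_pos
      linarith [f4 n, f4 (n + 2), p1 4 n (by norm_num), p1 4 (n + 1) (by norm_num)]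
    · have a := p1 6 n (by norm_num)
      split_ifs with h
      · obtain ⟨m, rfl⟩ : ∃ m, n = m + 2 := ⟨n - 2, by omega⟩
        have b := P_rec 2 3 m two_pos (by norm_num)
        have c := P_rec 3 2 m three_pos (by norm_num)
        rw [P_comm 3 2, P_comm 3 2] at c
        simp only [Nat.add_sub_cancel, add_assoc, Nat.reduceAdd] at *
        linarith [f6 (m + 2), f6 (m + 3)]
      · linarith [f6 n, f6 (n + 1), P_small n (by omega), P_small (n + 1) (by omega)]
    · have := P_rec 2 3 n two_pos (by norm_num)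
      linarith [f6 n, f6 (n + 2), p1 6 n (by norm_num), p1 6 (n + 1) (by norm_num)]
    · have := Q_rec 3 n three_pos
      linarith [f9 n, f9 (n + 3), p1 9 n (by norm_num), p1 9 (n + 1) (by norm_num),
        p1 9 (n + 2) (by norm_num)]
    · have := P_rec 2 5 n two_pos (by norm_num)
      linarith [f10 n, f10 (n + 2), p1 10 n (by norm_num), p1 10 (n + 1) (by norm_num)]

end Pool.Agent.Results.MP_46a37f_co.Primes
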